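import Pool.Agent.helper54.UG.Spec

set_option autoImplicit false

namespace Pool.Agent.UG

open Matrix Pool.Agent.H48SL

/-- the stabiliser of a row -/
private def CLA_F {n : ℕ} (ψ : Fin n → ℚ) : Subgroup (SLZ n) where
  carrier := {x | ψ ᵥ* qg x = ψ}
  one_mem' := by
    change ψ ᵥ* qg 1 = ψ
    rw [qg_one, vecMul_one]
  mul_mem' := by
    intro a b ha hb
    change ψ ᵥ* qg (a * b) = ψ
    change ψ ᵥ* qg a = ψ at ha
    change ψ ᵥ* qg b = ψ at hb
    rw [qg_mul, ← vecMul_vecMul, ha, hb]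
  inv_mem' := by
    intro a ha
    change ψ ᵥ* qg a = ψ at ha
    change ψ ᵥ* qg a⁻¹ = ψ
    have h1 : (ψ ᵥ* qg a) ᵥ* qg a⁻¹ = ψ := by
      rw [vecMul_vecMul, qg_mul_inv, vecMul_one]
    rwa [ha] at h1

private theorem CLA_tv {n : ℕ} (g : SLZ (n + 1)) (hf : fx g) (hd : dn (qg g) = 1) :
    g = tv (Pi.single 0 1) (fun j => if j = 0 then 0 else (g : Matrix (Fin (n + 1)) (Fin (n + 1)) ℤ) 0 j) := by
  apply SL_ext
  rw [tv_coe]
  · ext i j
    rw [Matrix.add_apply, vecMulVec_apply]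
    have hc := (fx_iff g).1 hf
    refine Fin.cases ?_ (fun i => ?_) i
    · rw [Pi.single_eq_same, one_mul]
      by_cases hj : j = 0
      · subst hj
        rw [hc, if_pos rfl, if_pos rfl, Matrix.one_apply_eq, add_zero]
      · rw [if_neg hj, Matrix.one_apply_ne (Ne.symm hj), zero_add]
    · rw [Pi.single_eq_of_ne (Fin.succ_ne_zero i), zero_mul, add_zero]
      refine Fin.cases ?_ (fun j => ?_) j
      · rw [hc, if_neg (Fin.succ_ne_zero i), Matrix.one_apply_ne (Fin.succ_ne_zero i)]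
      · have h1 := congrFun (congrFun hd i) j
        rw [dn_apply, qg_apply] at h1
        by_cases hij : i = j
        · subst hij
          rw [Matrix.one_apply_eq] at h1 ⊢
          exact_mod_cast h1
        · rw [Matrix.one_apply_ne hij] at h1
          rw [Matrix.one_apply_ne (fun h => hij (Fin.succ_injective n h))]
          exact_mod_cast h1
  · rw [dotProduct_single, if_pos rfl, zero_mul]

private theorem CLA_xe {n : ℕ} {i j : Fin n} (hij : i ≠ j) (K : ℕ) :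
    xe i j (K : ℤ) = (xe i j 1) ^ K := by
  unfold xe
  rw [← tv_nsmul_right (single_dot hij 1)]
  congr 1
  ext l
  by_cases hl : l = j
  · subst hl; simp
  · simp [hl]

private theorem CLA_fx {n : ℕ} (τ : Fin (n + 1) → ℤ) (h0 : τ 0 = 0) :
    fx (tv (Pi.single 0 1) τ : SLZ (n + 1)) := by
  have hd : τ ⬝ᵥ (Pi.single 0 1 : Fin (n + 1) → ℤ) = 0 := by
    rw [dotProduct_single, h0, zero_mul]
  rw [fx_iff]
  intro i
  rw [tv_coe hd, Matrix.add_apply, vecMulVec_apply, h0, mul_zero, add_zero]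
  by_cases hi : i = 0
  · subst hi; simp
  · rw [if_neg hi, Matrix.one_apply_ne hi]

private theorem CLA_vm {n : ℕ} (τ : Fin (n + 1) → ℤ) (h0 : τ 0 = 0) (ψ : Fin (n + 1) → ℚ) (hψ : ψ 0 = 1) :
    ψ ᵥ* qg (tv (Pi.single 0 1) τ : SLZ (n + 1)) = ψ + castV τ := by
  have hd : τ ⬝ᵥ (Pi.single 0 1 : Fin (n + 1) → ℤ) = 0 := by
    rw [dotProduct_single, h0, zero_mul]
  rw [qg_tv hd, vecMul_add, vecMul_one, vecMul_vecMulVec, castV_single, dotProduct_single, hψ,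
    mul_one, one_smul]

theorem CLA (hEXD : EXD_stmt) (hEXJ : EXJ_stmt) (hFFA : FFA_stmt) (hFFB : FFB_stmt)
    (hH1 : H1_stmt) (hEFI : EFI_stmt) : CLA_stmt := by
  intro n hn H X hD hF hfi
  obtain ⟨m, rfl⟩ : ∃ m, n = m + 1 := ⟨n - 1, by omega⟩
  by_contra hno
  have hno' : ∀ τ : Fin (m + 1 + 1) → ℤ, τ ≠ 0 → τ 0 = 0 → tv (Pi.single 0 1) τ ∉ H := by
    intro τ h1 h2 h3
    exact hno ⟨τ, h1, h2, h3⟩
  -- (i)
  have hker : ∀ g ∈ H ⊓ St (m + 1), dn (qg g) = 1 → g = 1 := by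
    intro g hg hd
    have h1 := CLA_tv g hg.2 hd
    by_cases h0 : (fun j => if j = 0 then 0 else (g : Matrix (Fin (m + 1 + 1)) (Fin (m + 1 + 1)) ℤ) 0 j) = 0
    · rw [h1, h0, tv_zero_right]
    · exfalso
      apply hno' _ h0 (by simp)
      rw [← h1]
      exact hg.1
  -- (ii)
  obtain ⟨K, hK, hKm⟩ : ∃ K : ℕ, 1 ≤ K ∧ ∀ i j : Fin (m + 1), i ≠ j → xe i j (K : ℤ) ∈ Hb H := by
    refine ⟨(Hb H).index.factorial, Nat.factorial_pos _, fun i j hij => ?_⟩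
    obtain ⟨a, ha, hle, hmem⟩ := Subgroup.exists_pow_mem_of_index_ne_zero hfi.index_ne_zero (xe i j 1)
    rw [CLA_xe hij]
    obtain ⟨b, hb⟩ := Nat.dvd_factorial ha hle
    rw [hb, pow_mul]
    exact Subgroup.pow_mem _ hmem b
  have hlift : ∀ i j : Fin (m + 1), ∃ g : SLZ (m + 1 + 1), i ≠ j →
      g ∈ H ⊓ St (m + 1) ∧ dn (qg g) = qg (xe i j (K : ℤ)) := by
    intro i j
    by_cases hij : i ≠ j
    · obtain ⟨h, hh, hf, hd⟩ := mem_Hb.1 (hKm i j hij)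
      exact ⟨h, fun _ => ⟨⟨hh, hf⟩, hd⟩⟩
    · exact ⟨1, fun h => absurd h hij⟩
  choose g hg using hlift
  obtain ⟨ψ, hψ0, hψ⟩ := hH1 (m + 1) hn (H ⊓ St (m + 1)) (fun x hx => hx.2) hker K hK g hg
  set E : Subgroup (SLZ (m + 1 + 1)) := (H ⊓ St (m + 1)) ⊓ CLA_F ψ with hE
  have hEfi : (Hb E).FiniteIndex := by
    apply hEFI (m + 1) hn K hK
    intro i j hij
    rw [mem_Hb]
    exact ⟨g i j, ⟨(hg i j hij).1, hψ i j hij⟩, (hg i j hij).1.2, (hg i j hij).2⟩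
  obtain ⟨hA1, hA2, hA3, hA4, hA5⟩ := hFFA (m + 1) H X hF
  -- (iii)
  have hiii : ∀ h ∈ H, ψ ᵥ* Ff X h = 0 := by
    intro h hh
    obtain ⟨k, hk, x, hx, hqx⟩ := hA4 h hh
    have hnil : IsNilpotent ((k : ℚ) • Ff X h) := (hA2 h).smul _
    have hfx : fx x := by
      unfold fx
      rw [hqx]
      exact (hEXD (m + 1) _ hnil (by rw [smul_mulVec, hA1 h, smul_zero])).2.2
    obtain ⟨j, hj, -, hmem⟩ := Subgroup.exists_pow_mem_of_index_ne_zero hEfi.index_ne_zero (bl x hfx)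
    obtain ⟨ε, hε, hεf, hεd⟩ := mem_Hb.1 hmem
    have hx2 : x ^ j = ε := by
      have h1 : blHom (m + 1) (⟨x, hfx⟩ ^ j) = blHom (m + 1) ⟨ε, hεf⟩ := by
        rw [map_pow]
        apply qg_inj
        change qg (bl x hfx ^ j) = dn (qg ε)
        exact hεd.symm
      have h2 : blHom (m + 1) ((⟨x, hfx⟩ : St (m + 1)) ^ j * (⟨ε, hεf⟩ : St (m + 1))⁻¹) = 1 := by
        rw [map_mul, map_inv, h1, mul_inv_cancel]
      have h3 : dn (qg (x ^ j * ε⁻¹)) = 1 := by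
        have h4 := congrArg qg h2
        rw [qg_one] at h4
        exact h4
      have h5 := hker (x ^ j * ε⁻¹) ⟨H.mul_mem (H.pow_mem hx j) (H.inv_mem hε.1.1),
        (St (m + 1)).mul_mem ((St (m + 1)).pow_mem hfx j) ((St (m + 1)).inv_mem hεf)⟩ h3
      exact mul_inv_eq_one.mp h5
    have h6 : ψ ᵥ* qg (x ^ j) = ψ := by
      rw [hx2]
      exact hε.2
    rw [qg_pow, hqx, (hEXJ _ _ hnil).1 j] at h6
    have h7 := (hEXJ _ ((j : ℚ) • ((k : ℚ) • Ff X h)) (hnil.smul _)).2.2.1 ψ h6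
    rw [vecMul_smul, vecMul_smul, smul_eq_zero, smul_eq_zero] at h7
    rcases h7 with h7 | h7 | h7
    · exact absurd h7 (by exact_mod_cast hj.ne')
    · exact absurd h7 (by exact_mod_cast (by omega : k ≠ 0))
    · exact h7
  -- (iv)
  have hiv : ∀ h : SLZ (m + 1 + 1), ψ ᵥ* Ff X h = 0 := by
    intro h
    ext i
    have hp : IsPolyQ (fun h : SLZ (m + 1 + 1) => (ψ ᵥ* Ff X h) i) := by
      have h1 : (fun h : SLZ (m + 1 + 1) => (ψ ᵥ* Ff X h) i) = fun h => ∑ k, ψ k * Ff X h k i := by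
        ext h
        rfl
      rw [h1]
      exact IsPolyQ.sum _ _ fun k _ => (IsPolyQ.const _).mul (hA5 k i)
    exact IsPolyQ.dense hD hp (fun x hx => by rw [hiii x hx]; rfl) h
  obtain ⟨h, hh⟩ := hFFB m H X hF
  apply hh
  ext i j
  rw [dn_apply]
  set τ : Fin (m + 1 + 1) → ℤ := Pi.single i.succ 1 with hτ
  have hτ0 : τ 0 = 0 := by
    rw [hτ, Pi.single_eq_of_ne (Ne.symm (Fin.succ_ne_zero i))]
  have h1 := hiv (tv (Pi.single 0 1) τ * h)
  rw [hA3 _ _ (CLA_fx τ hτ0)] at h1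
  have h2 := congrArg (fun w => w ᵥ* qg (tv (Pi.single 0 1) τ : SLZ (m + 1 + 1))) h1
  simp only [vecMul_vecMul, zero_vecMul] at h2
  rw [mul_assoc, mul_assoc, qg_inv_mul, mul_one, ← vecMul_vecMul, CLA_vm τ hτ0 ψ hψ0, add_vecMul,
    hiv h, zero_add, hτ, castV_single] at h2
  have h3 := congrFun h2 j.succ
  rw [single_one_vecMul] at h3
  exact h3

end Pool.Agent.UG
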